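import Mathlib
import Pool.Agent.W336.CS.Stmts

/-!
# Invariant mean implies the Folner condition
-/

set_option autoImplicit false

namespace Pool.Agent.W361.CS

open Pool.Agent.W336.CS
open scoped Pointwise

/-- finite additivity -/
theorem sum_mean {G ι : Type} (m : Set G → ℝ) (h0 : m ∅ = 0)
    (hadd : ∀ A B, Disjoint A B → m (A ∪ B) = m A + m B) (s : Finset ι) (A : ι → Set G)
    (hd : ∀ i ∈ s, ∀ j ∈ s, i ≠ j → Disjoint (A i) (A j)) :
    m (⋃ i ∈ s, A i) = ∑ i ∈ s, m (A i) := by
  classical
  induction s using Finset.induction_on with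
  | empty => simp [h0]
  | insert a s ha ih =>
    rw [Finset.sum_insert ha, Finset.set_biUnion_insert, hadd, ih]
    · intro i hi j hj hij
      exact hd i (Finset.mem_insert_of_mem hi) j (Finset.mem_insert_of_mem hj) hij
    · rw [Set.disjoint_iUnion₂_right]
      intro i hi
      exact hd a (Finset.mem_insert_self a s) i (Finset.mem_insert_of_mem hi)
        (fun h => ha (h ▸ hi))

/-- amenable groups satisfy Folner's condition -/
theorem fol : S_fol := by
  classical
  rintro G _ ⟨m, hm0, hm1, hadd, hinv⟩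
  by_contra hF
  unfold Fol at hF
  push Not at hF
  obtain ⟨S, ε, hε, hF⟩ := hF
  set S' : Finset G := insert 1 S with hS'
  have hexp : ∀ F : Finset G, (1 + ε) * F.card ≤ ((S' * F).card : ℝ) := by
    intro F
    rcases F.eq_empty_or_nonempty with rfl | hne
    · simp
    obtain ⟨s, hs, hlt⟩ := hF F hne
    have h1 : F ⊆ S' * F := by
      intro x hx
      exact Finset.mem_mul.2 ⟨1, by simp [hS'], x, hx, one_mul x⟩
    have h2 : (F.filter (fun x => s * x ∉ F)).image (fun x => s * x) ⊆ (S' * F) \ F := by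
      intro y hy
      obtain ⟨x, hx, rfl⟩ := Finset.mem_image.1 hy
      rw [Finset.mem_filter] at hx
      rw [Finset.mem_sdiff]
      exact ⟨Finset.mem_mul.2 ⟨s, by simp [hS', hs], x, hx.1, rfl⟩, hx.2⟩
    have h3 : ((F.filter (fun x => s * x ∉ F)).image (fun x => s * x)).card
        = (F.filter (fun x => s * x ∉ F)).card :=
      Finset.card_image_of_injective _ (mul_right_injective s)
    have h4 : Set.ncard {x : G | x ∈ F ∧ s * x ∉ F} = (F.filter (fun x => s * x ∉ F)).card := by
      rw [← Set.ncard_coe_finset]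
      congr 1
      ext x
      simp
    have h5 := Finset.card_le_card h2
    rw [h3, ← h4] at h5
    have h6 : (S' * F).card = ((S' * F) \ F).card + F.card := by
      rw [Finset.card_sdiff_add_card_eq_card h1]
    have h7 : (Set.ncard {x : G | x ∈ F ∧ s * x ∉ F} : ℝ) ≤ (((S' * F) \ F).card : ℝ) := by
      exact_mod_cast h5
    have h8 : ((S' * F).card : ℝ) = (((S' * F) \ F).card : ℝ) + F.card := by
      exact_mod_cast h6
    rw [h8]
    nlinarith
  have hpow : ∀ (k : ℕ) (F : Finset G), (1 + ε) ^ k * F.card ≤ ((S' ^ k * F).card : ℝ) := by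
    intro k
    induction k with
    | zero => intro F; simp
    | succ k ih =>
      intro F
      have h1 := hexp (S' ^ k * F)
      have h2 := ih F
      rw [pow_succ', pow_succ', mul_assoc, mul_assoc]
      calc (1 + ε) * ((1 + ε) ^ k * F.card) ≤ (1 + ε) * ((S' ^ k * F).card : ℝ) :=
            mul_le_mul_of_nonneg_left h2 (by linarith)
        _ ≤ _ := h1
  obtain ⟨k, hk⟩ := pow_unbounded_of_one_lt 2 (show 1 < 1 + ε by linarith)
  set T : Finset G := S' ^ k with hT
  have hT2 : ∀ F : Finset G, 2 * F.card ≤ (T * F).card := by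
    intro F
    have h1 := hpow k F
    have h2 : (2 : ℝ) * F.card ≤ ((T * F).card : ℝ) := by
      refine le_trans ?_ h1
      exact mul_le_mul_of_nonneg_right hk.le (Nat.cast_nonneg _)
    exact_mod_cast h2
  -- Hall
  have hall := (Finset.all_card_le_biUnion_card_iff_exists_injective
    (fun q : G × Bool => T * {q.1})).1 (by
      intro s
      have h1 : s.biUnion (fun q : G × Bool => T * {q.1}) = T * s.image Prod.fst := by
        ext y
        simp only [Finset.mem_biUnion, Finset.mem_mul, Finset.mem_singleton, Finset.mem_image]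
        constructor
        · rintro ⟨q, hq, t, ht, x, rfl, rfl⟩
          exact ⟨t, ht, q.1, ⟨q, hq, rfl⟩, rfl⟩
        · rintro ⟨t, ht, x, ⟨q, hq, rfl⟩, rfl⟩
          exact ⟨q, hq, t, ht, q.1, rfl, rfl⟩
      rw [h1]
      have h2 : s ⊆ (s.image Prod.fst) ×ˢ (Finset.univ : Finset Bool) := by
        intro q hq
        exact Finset.mem_product.2 ⟨Finset.mem_image_of_mem _ hq, Finset.mem_univ _⟩
      have h3 := Finset.card_le_card h2
      rw [Finset.card_product] at h3
      have h4 : (Finset.univ : Finset Bool).card = 2 := by decide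
      rw [h4] at h3
      calc s.card ≤ 2 * (s.image Prod.fst).card := by omega
        _ ≤ _ := hT2 _)
  obtain ⟨f, hf, hfT⟩ := hall
  have hc : ∀ q : G × Bool, ∃ t ∈ T, f q = t * q.1 := by
    intro q
    obtain ⟨t, ht, x, hx, h⟩ := Finset.mem_mul.1 (hfT q)
    rw [Finset.mem_singleton] at hx
    exact ⟨t, ht, by rw [← h, hx]⟩
  choose c hcT hcf using hc
  have h0 : m ∅ = 0 := by
    have := hadd ∅ ∅ (by simp)
    simp at this
    exact this
  have hle1 : ∀ A, m A ≤ 1 := by
    intro A
    have h := hadd A Aᶜ disjoint_compl_right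
    rw [Set.union_compl_self, hm1] at h
    have := hm0 Aᶜ
    linarith
  -- the pieces
  set X : Bool × G → Set G := fun p => {x | c (x, p.1) = p.2} with hX
  have hsum1 : ∀ i : Bool, ∑ t ∈ T, m (X (i, t)) = 1 := by
    intro i
    rw [← sum_mean m h0 hadd T (fun t => X (i, t)), ← hm1]
    · congr 1
      rw [Set.eq_univ_iff_forall]
      intro x
      rw [Set.mem_iUnion₂]
      exact ⟨c (x, i), hcT _, rfl⟩
    · intro t _ t' _ htt
      rw [Set.disjoint_left]
      intro x hx hx'
      exact htt (hx.symm.trans hx')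
  have hsum2 : ∑ p ∈ (Finset.univ : Finset Bool) ×ˢ T, m ((fun x => p.2 * x) '' X p) ≤ 1 := by
    rw [← sum_mean m h0 hadd]
    · exact hle1 _
    · rintro ⟨i, t⟩ _ ⟨j, t'⟩ _ hne
      rw [Set.disjoint_left]
      rintro y ⟨x, hx, rfl⟩ ⟨x', hx', h⟩
      simp only [hX, Set.mem_ofPred_eq] at hx hx' h
      have h1 : f (x, i) = t * x := by rw [hcf, hx]
      have h2 : f (x', j) = t' * x' := by rw [hcf, hx']
      have h3 : f (x', j) = f (x, i) := by rw [h1, h2, h]
      have h4 := hf h3
      rw [Prod.mk.injEq] at h4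
      apply hne
      rw [Prod.mk.injEq]
      refine ⟨h4.2.symm, ?_⟩
      rw [← hx, ← hx', h4.1, h4.2]
  have hsum3 : ∑ p ∈ (Finset.univ : Finset Bool) ×ˢ T, m ((fun x => p.2 * x) '' X p) = 2 := by
    have : ∀ p ∈ (Finset.univ : Finset Bool) ×ˢ T, m ((fun x => p.2 * x) '' X p) = m (X p) :=
      fun p _ => hinv p.2 (X p)
    rw [Finset.sum_congr rfl this, Finset.sum_product]
    simp only [hsum1]
    simp
  linarith

end Pool.Agent.W361.CS
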